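import Pool.Agent.Q107.Snark.Final

/-!
# There are infinitely many pairwise non-isomorphic rotation snarks

All definitions of the statement are in `Pool.Agent.Q107.Snark.Defs`.
-/

set_option autoImplicit false

namespace Pool.Agent.Results.MP_3688cb_co.InfinitelyMany

open Q107.Snark

/-- There is an infinite sequence of pairwise non-isomorphic rotation snarks; the `j`-th one is a
rotation `T_(j+6)`-snark. -/
theorem result : ∃ (V : ℕ → Type) (G : ∀ j, SimpleGraph (V j)),
    (∀ j, IsRotationTSnark (G j) (j + 6)) ∧ ∀ j l, j ≠ l → IsEmpty (G j ≃g G l) := by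
  refine ⟨fun k => Vx k, fun k => Gr k, rotationGr, ?_⟩
  intro j l hjl
  refine ⟨fun e => hjl ?_⟩
  have h := Fintype.card_congr e.toEquiv
  rw [card_Vx, card_Vx] at h
  have h1 : 1 ≤ 2 ^ (j + 6) := Nat.one_le_two_pow
  have h2 : 1 ≤ 2 ^ (l + 6) := Nat.one_le_two_pow
  have h3 : 2 ^ (j + 6) = 2 ^ (l + 6) := by omega
  have h4 := Nat.pow_right_injective (le_refl 2) h3
  omega

end Pool.Agent.Results.MP_3688cb_co.InfinitelyMany
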